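import Pool.Agent.N522.TB.Defs
import Pool.Agent.Helper197.Ode

/-!
# Continuous dependence on initial conditions for the planar three-body problem

The hypothesis `ContinuousDependence m` of `Pool.Agent.N522.TB` holds for all `m`.
-/

open Set Topology Metric Pool.Agent.N522.TB
open scoped ContDiff Manifold

namespace Pool.Agent.N88.TB

/-- The accelerations. -/
noncomputable def acc (m : Fin 3 → ℝ) (x : Pos) : Pos := fun a =>
  ∑ b ∈ Finset.univ.erase a, (m b / ‖x b - x a‖ ^ 3) • (x b - x a)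

/-- The vector field of the three-body problem on phase space. -/
noncomputable def fld (m : Fin 3 → ℝ) (z : Pos × Pos) : Pos × Pos := (z.2, acc m z.1)

lemma fld_contDiffAt (m : Fin 3 → ℝ) {z : Pos × Pos} (hz : z ∈ Phase) :
    ContDiffAt ℝ 2 (fld m) z := by
  refine contDiffAt_snd.prodMk (contDiffAt_pi.2 fun a => ?_)
  refine ContDiffAt.sum fun b hb => ?_
  have hab : z.1 b - z.1 a ≠ 0 := sub_ne_zero.2 (hz b a (Finset.ne_of_mem_erase hb))
  have h1 : ContDiffAt ℝ 2 (fun z : Pos × Pos => z.1 b - z.1 a) z := by fun_prop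
  have h2 : ContDiffAt ℝ 2 (fun z : Pos × Pos => ‖z.1 b - z.1 a‖ ^ 3) z := (h1.norm ℝ hab).pow 3
  have h3 : ‖z.1 b - z.1 a‖ ^ 3 ≠ 0 := pow_ne_zero _ (norm_ne_zero_iff.2 hab)
  exact (contDiffAt_const.div h2 h3).smul h1

/-- Cutting off the vector field near a compact set of phase space. -/
lemma exists_cutoff (m : Fin 3 → ℝ) {K : Set (Pos × Pos)} (hK : IsCompact K) (hKP : K ⊆ Phase) :
    ∃ (g : Pos × Pos → Pos × Pos) (U : Set (Pos × Pos)), ContDiff ℝ 2 g ∧ HasCompactSupport g ∧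
      IsOpen U ∧ K ⊆ U ∧ U ⊆ Phase ∧ ∀ z ∈ U, g z = fld m z := by
  obtain ⟨L1, hL1, hK1, hL1P⟩ := exists_compact_between hK isOpen_phase hKP
  obtain ⟨L2, hL2, hK2, hL2P⟩ := exists_compact_between hL1 isOpen_phase hL1P
  have hdis : Disjoint (interior L2)ᶜ L1 := by
    rw [Set.disjoint_left]
    exact fun z hz hz' => hz (hK2 hz')
  obtain ⟨χ, hχ0, hχ1, -⟩ := exists_contMDiffMap_zero_one_of_isClosed (n := (⊤ : ℕ∞)) 𝓘(ℝ, Pos × Pos)
    (isOpen_interior.isClosed_compl) hL1.isClosed hdis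
  have hχ : ContDiff ℝ 2 (fun z => χ z) := by
    have := χ.contMDiff
    rw [contMDiff_iff_contDiff] at this
    exact (contDiff_infty.1 this) 2
  refine ⟨fun z => χ z • fld m z, interior L1, ?_, ?_, isOpen_interior, hK1,
    interior_subset.trans hL1P, ?_⟩
  · rw [contDiff_iff_contDiffAt]
    intro z
    by_cases hz : z ∈ L2
    · exact hχ.contDiffAt.smul (fld_contDiffAt m (hL2P hz))
    · have : (fun z => χ z • fld m z) =ᶠ[𝓝 z] fun _ => 0 := by
        filter_upwards [hL2.isClosed.isOpen_compl.mem_nhds hz] with y hy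
        have : χ y = 0 := hχ0 (fun h => hy (interior_subset h))
        simp [this]
      exact contDiffAt_const.congr_of_eventuallyEq this
  · refine HasCompactSupport.intro hL2 fun z hz => ?_
    have : χ z = 0 := hχ0 (fun h => hz (interior_subset h))
    simp [this]
  · intro z hz
    have : χ z = 1 := hχ1 (interior_subset hz)
    simp [this]

theorem continuousDependence (m : Fin 3 → ℝ) : ContinuousDependence m := by
  intro C
  rw [isOpen_iff_mem_nhds]
  rintro x ⟨hxP, s, t, q, hs, ht, ⟨v, hv⟩, hq0, hqd, τ, hτ, a, b, hab⟩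
  rcases (hs.trans ht).eq_or_lt with hst | hst
  · have hs0 : s = 0 := le_antisymm hs (hst ▸ ht)
    have ht0 : t = 0 := hst ▸ hs0
    subst hs0
    subst ht0
    have hτ0 : τ = 0 := le_antisymm hτ.2 hτ.1
    subst hτ0
    rw [hq0] at hab
    have h1 : ∀ᶠ y : Pos × Pos in 𝓝 x, C < ‖y.1 a - y.1 b‖ :=
      (isOpen_lt continuous_const (by fun_prop : Continuous fun y : Pos × Pos => ‖y.1 a - y.1 b‖)).mem_nhds hab
    filter_upwards [h1, isOpen_phase.mem_nhds hxP] with y hy hyP
    refine ⟨hyP, 0, 0, fun _ => y.1, le_rfl, le_rfl, ⟨fun _ => y.2, fun u hu => ?_⟩, rfl, ?_, 0,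
      ⟨le_rfl, le_rfl⟩, a, b, hy⟩
    · have hu0 : u = 0 := le_antisymm hu.2 hu.1
      subst hu0
      rw [Icc_self]
      exact ⟨hyP, HasFDerivWithinAt.singleton, HasFDerivWithinAt.singleton⟩
    · rw [Icc_self]
      exact HasFDerivWithinAt.singleton
  · have h0 : (0 : ℝ) ∈ Icc s t := ⟨hs, ht⟩
    set Z : ℝ → Pos × Pos := fun u => (q u, v u) with hZ
    have hZd : ∀ u ∈ Icc s t, HasDerivWithinAt Z (fld m (Z u)) (Icc s t) u :=
      fun u hu => (hv u hu).2.1.prodMk (hv u hu).2.2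
    have hv0 : v 0 = x.2 :=
      ((uniqueDiffOn_Icc hst) 0 h0).eq_deriv _ (hv 0 h0).2.1 hqd
    have hZ0 : Z 0 = x := by
      simp only [hZ]
      rw [hq0, hv0]
    have hKc : IsCompact (Z '' Icc s t) :=
      isCompact_Icc.image_of_continuousOn fun u hu => (hZd u hu).continuousWithinAt
    have hKP : Z '' Icc s t ⊆ Phase := by
      rintro _ ⟨u, hu, rfl⟩
      exact (hv u hu).1
    obtain ⟨g, U, hg, hgc, hU, hKU, hUP, hgU⟩ := exists_cutoff m hKc hKP
    obtain ⟨φ, hφ0, hφ, -, -, hφc, -⟩ := Pool.Agent.Helper197.SI.exists_global_flow g hg hgc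
    have hZφ : ∀ u ∈ Icc s t, Z u = φ u x := by
      have := Pool.Agent.Helper197.SI.flow_unique g (hg.of_le (by norm_num)) hgc φ hφ0 hφ Z s t hs ht
        (fun u hu => by rw [hgU _ (hKU ⟨u, hu, rfl⟩)]; exact hZd u hu)
      rwa [hZ0] at this
    have h1 : ∀ᶠ y in 𝓝 x, ∀ u ∈ Icc s t, φ u y ∈ U := by
      refine isCompact_Icc.eventually_forall_of_forall_eventually fun u hu => ?_
      have hc : Continuous (fun z : (Pos × Pos) × ℝ => φ z.2 z.1) :=
        hφc.comp (continuous_snd.prodMk continuous_fst)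
      refine (hU.preimage hc).mem_nhds ?_
      show φ u x ∈ U
      rw [← hZφ u hu]
      exact hKU ⟨u, hu, rfl⟩
    have h2 : ∀ᶠ y in 𝓝 x, C < ‖(φ τ y).1 a - (φ τ y).1 b‖ := by
      have hc : Continuous (fun y : Pos × Pos => φ τ y) :=
        hφc.comp (continuous_const.prodMk continuous_id)
      have hc' : Continuous (fun y : Pos × Pos => ‖(φ τ y).1 a - (φ τ y).1 b‖) := by
        have h3 : Continuous (fun z : Pos × Pos => ‖z.1 a - z.1 b‖) := by fun_prop
        exact h3.comp hc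
      refine (isOpen_lt continuous_const hc').mem_nhds ?_
      show C < ‖(φ τ x).1 a - (φ τ x).1 b‖
      rw [← hZφ τ hτ]
      exact hab
    filter_upwards [h1, h2, isOpen_phase.mem_nhds hxP] with y hy1 hy2 hyP
    have key : ∀ u ∈ Icc s t, HasDerivAt (fun r => φ r y) (fld m (φ u y)) u := fun u hu => by
      have := hφ y u
      rwa [hgU _ (hy1 u hu)] at this
    refine ⟨hyP, s, t, fun u => (φ u y).1, hs, ht, ⟨fun u => (φ u y).2, fun u hu => ⟨hUP (hy1 u hu), ?_, ?_⟩⟩,
      ?_, ?_, τ, hτ, a, b, hy2⟩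
    · exact ((ContinuousLinearMap.fst ℝ Pos Pos).hasFDerivAt.comp_hasDerivAt u (key u hu)).hasDerivWithinAt
    · exact ((ContinuousLinearMap.snd ℝ Pos Pos).hasFDerivAt.comp_hasDerivAt u (key u hu)).hasDerivWithinAt
    · simp only [hφ0]
    · have h3 := ((ContinuousLinearMap.fst ℝ Pos Pos).hasFDerivAt.comp_hasDerivAt 0 (key 0 h0)).hasDerivWithinAt
        (s := Icc s t)
      have h4 : (ContinuousLinearMap.fst ℝ Pos Pos) (fld m (φ 0 y)) = y.2 := by rw [hφ0]; rfl
      rw [h4] at h3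
      exact h3

end Pool.Agent.N88.TB
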